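import Pool.Agent.W133.DQ.StF
import Pool.Agent.W133.DQ.StB
import Pool.Agent.W133.DQ.StC

/-! Normal scalings have zero value. -/

set_option autoImplicit false

open scoped ContDiff
open Set Filter Topology

namespace Pool.Agent.W74.DQ

open Pool.Agent.W133.DQ

/-- smooth 1-periodic functions -/
def PS (β : ℝ → ℝ) : Prop := ContDiff ℝ ∞ β ∧ ∀ x, β (x + 1) = β x

lemma PS.periodic {β : ℝ → ℝ} (h : PS β) : Function.Periodic β 1 := h.2

lemma cos_le_half {y : ℝ} (h1 : 1 / 6 ≤ y) (h2 : y ≤ 5 / 6) : Real.cos (2 * Real.pi * y) ≤ 1 / 2 := by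
  have hpi := Real.pi_pos
  rw [← Real.cos_pi_div_three]
  rcases le_total y (1 / 2) with h | h
  · exact Real.cos_le_cos_of_nonneg_of_le_pi (by positivity) (by nlinarith) (by nlinarith)
  · rw [← Real.cos_two_pi_sub (2 * Real.pi * y)]
    exact Real.cos_le_cos_of_nonneg_of_le_pi (by positivity) (by nlinarith) (by nlinarith)

lemma half_le_cos {y : ℝ} (h0 : 0 ≤ y) (h1 : y ≤ 1) (h : y ≤ 1 / 6 ∨ 5 / 6 ≤ y) :
    1 / 2 ≤ Real.cos (2 * Real.pi * y) := by
  have hpi := Real.pi_pos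
  rw [← Real.cos_pi_div_three]
  rcases h with h | h
  · exact Real.cos_le_cos_of_nonneg_of_le_pi (by positivity) (by linarith) (by nlinarith)
  · rw [← Real.cos_two_pi_sub (2 * Real.pi * y)]
    exact Real.cos_le_cos_of_nonneg_of_le_pi (by nlinarith) (by linarith) (by nlinarith)

lemma cos_fract (x : ℝ) : Real.cos (2 * Real.pi * Int.fract x) = Real.cos (2 * Real.pi * x) := by
  rw [← Int.self_sub_floor]
  have : 2 * Real.pi * (x - ⌊x⌋) = 2 * Real.pi * x - (⌊x⌋ : ℝ) * (2 * Real.pi) := by ring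
  rw [this, Real.cos_sub_int_mul_two_pi]

/-- a smooth 1-periodic function equal to `x` on most of the unit interval -/
noncomputable def vv (x : ℝ) : ℝ :=
  Int.fract x * Real.smoothTransition (3 - 4 * Real.cos (2 * Real.pi * x))

lemma vv_eq {x : ℝ} (h : Real.cos (2 * Real.pi * x) ≤ 1 / 2) : vv x = Int.fract x := by
  unfold vv
  rw [Real.smoothTransition.one_of_one_le (by linarith), mul_one]

lemma contDiff_cos2 : ContDiff ℝ ∞ (fun x : ℝ => Real.cos (2 * Real.pi * x)) :=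
  Real.contDiff_cos.comp (contDiff_const.mul contDiff_id)

lemma vv_PS : PS vv := by
  constructor
  · rw [contDiff_iff_contDiffAt]
    intro x
    have hc : ContDiff ℝ ∞ (fun x : ℝ => Real.smoothTransition (3 - 4 * Real.cos (2 * Real.pi * x))) :=
      Real.smoothTransition.contDiff.comp
        (contDiff_const.sub (contDiff_const.mul contDiff_cos2))
    by_cases hx : (⌊x⌋ : ℝ) = x
    · have h1 : Real.cos (2 * Real.pi * x) = 1 := by
        rw [← cos_fract, ← Int.self_sub_floor, hx, sub_self, mul_zero, Real.cos_zero]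
      have h2 : ∀ᶠ y in 𝓝 x, 3 / 4 < Real.cos (2 * Real.pi * y) :=
        (contDiff_cos2.continuous.tendsto x).eventually_const_lt (by rw [h1]; norm_num)
      have h3 : vv =ᶠ[𝓝 x] fun _ => 0 := by
        filter_upwards [h2] with y hy
        unfold vv
        rw [Real.smoothTransition.zero_of_nonpos (by linarith), mul_zero]
      exact (contDiffAt_const.congr_of_eventuallyEq h3)
    · have hlt : (⌊x⌋ : ℝ) < x := lt_of_le_of_ne (Int.floor_le x) hx
      have h2 : ∀ᶠ y in 𝓝 x, (⌊x⌋ : ℝ) < y ∧ y < ⌊x⌋ + 1 :=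
        (eventually_gt_nhds hlt).and (eventually_lt_nhds (Int.lt_floor_add_one x))
      have h3 : vv =ᶠ[𝓝 x] fun y => (y - ⌊x⌋) *
          Real.smoothTransition (3 - 4 * Real.cos (2 * Real.pi * y)) := by
        filter_upwards [h2] with y hy
        have : ⌊y⌋ = ⌊x⌋ := Int.floor_eq_iff.2 ⟨hy.1.le, hy.2⟩
        unfold vv
        rw [← Int.self_sub_floor, this]
      exact ((contDiff_id.sub contDiff_const).mul hc).contDiffAt.congr_of_eventuallyEq h3
  · intro x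
    unfold vv
    have : 2 * Real.pi * (x + 1) = 2 * Real.pi * x + 2 * Real.pi := by ring
    rw [Int.fract_add_one, this, Real.cos_add_two_pi]

/-- the diffeomorphism `x ↦ x + w x` -/
lemma exists_X (hL : S_LPINV) {w : ℝ → ℝ} (hw : PS w) (hw1 : ∀ x, -1 < deriv w x) :
    ∃ X : Equiv.Perm ℝ, CD X ∧ ∀ x, X x = x + w x := by
  obtain ⟨C, hC⟩ : ∃ C : ℝ, ∀ x, |w x| ≤ C := by
    have h1 := (hw.periodic.compact_of_continuous one_ne_zero hw.1.continuous).isBounded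
    obtain ⟨C, hC⟩ := isBounded_iff_forall_norm_le.1 h1
    exact ⟨C, fun x => hC _ (mem_range_self x)⟩
  obtain ⟨M, hM, hMi⟩ := hL ℝ (fun q => w q.1) (hw.1.comp contDiff_fst) (fun x e => hw1 x)
    (fun e => ⟨C, fun x => hC x⟩)
  have hM1 : ∀ x, M (x, 0) = (x + w x, 0) := fun x => hM (x, 0)
  have hM2 : ∀ y, (M⁻¹ (y, 0)).2 = 0 ∧ (M⁻¹ (y, 0)).1 + w (M⁻¹ (y, 0)).1 = y := by
    intro y
    have h1 := hM (M⁻¹ (y, 0))
    rw [show M (M⁻¹ (y, 0)) = (y, 0) from M.apply_symm_apply _] at h1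
    exact ⟨(congrArg Prod.snd h1).symm, (congrArg Prod.fst h1).symm⟩
  refine ⟨⟨fun x => x + w x, fun y => (M⁻¹ (y, 0)).1, fun x => ?_, fun y => (hM2 y).2⟩, ?_,
    fun x => rfl⟩
  · show (M⁻¹ (x + w x, 0)).1 = x
    rw [← hM1 x, show M⁻¹ (M (x, 0)) = (x, 0) from M.symm_apply_apply _]
  · refine ⟨⟨contDiff_id.add hw.1, ?_, ?_⟩, fun x => ?_⟩
    · show ContDiff ℝ ∞ (fun y => (M⁻¹ (y, 0)).1)
      exact contDiff_fst.comp (hMi.comp (contDiff_id.prodMk contDiff_const))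
    · show StrictMono (fun x => x + w x)
      refine strictMono_of_deriv_pos fun x => ?_
      have hd : DifferentiableAt ℝ w x := hw.1.differentiable (by simp) x
      have : deriv (fun x => x + w x) x = 1 + deriv w x := by
        have h1 := ((hasDerivAt_id x).add hd.hasDerivAt).deriv
        exact h1
      rw [this]
      linarith [hw1 x]
    · show x + 1 + w (x + 1) = x + w x + 1
      rw [hw.2]; ring

/-- the translation by one half -/
lemma exists_T : ∃ X : Equiv.Perm ℝ, CD X ∧ ∀ x, X x = x + 1 / 2 := by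
  refine ⟨Equiv.addRight (1 / 2), ⟨⟨contDiff_id.add contDiff_const, ?_, ?_⟩, fun x => ?_⟩,
    fun x => rfl⟩
  · have : (fun x : ℝ => (Equiv.addRight (1 / 2 : ℝ))⁻¹ x) = fun x => x - 1 / 2 := by
      funext x
      rw [Equiv.Perm.inv_eq_iff_eq]
      simp
    rw [this]
    exact contDiff_id.sub contDiff_const
  · intro x y hxy
    show x + 1 / 2 < y + 1 / 2
    linarith
  · show x + 1 + 1 / 2 = x + 1 / 2 + 1
    ring

lemma PS.add {β γ : ℝ → ℝ} (h : PS β) (h' : PS γ) : PS (fun x => β x + γ x) :=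
  ⟨h.1.add h'.1, fun x => by simp only [h.2, h'.2]⟩

lemma PS.const_mul {β : ℝ → ℝ} (c : ℝ) (h : PS β) : PS (fun x => c * β x) :=
  ⟨contDiff_const.mul h.1, fun x => by simp only [h.2]⟩

section
variable {Λ : (ℝ → ℝ) → ℝ}

lemma smul_nat (hadd : ∀ β γ, PS β → PS γ → Λ (fun x => β x + γ x) = Λ β + Λ γ)
    {β : ℝ → ℝ} (hβ : PS β) (m : ℕ) : Λ (fun x => m * β x) = m * Λ β := by
  induction m with
  | zero =>
    have h0 : PS (fun _ : ℝ => (0 : ℝ)) := ⟨contDiff_const, fun _ => rfl⟩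
    have h1 := hadd _ _ h0 h0
    simp only [add_zero] at h1
    simp only [Nat.cast_zero, zero_mul]
    linarith
  | succ m ih =>
    have h1 := hadd _ _ (hβ.const_mul (m : ℝ)) hβ
    have : (fun x => ((m + 1 : ℕ) : ℝ) * β x) = fun x => (m : ℝ) * β x + β x := by
      funext x; push_cast; ring
    rw [this, h1, ih]
    push_cast
    ring

lemma vanA (hL : S_LPINV) (hadd : ∀ β γ, PS β → PS γ → Λ (fun x => β x + γ x) = Λ β + Λ γ)
    (hinv : ∀ β, PS β → ∀ X, CD X → Λ (fun x => β (X x)) = Λ β)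
    {β : ℝ → ℝ} (hβ : PS β) (h0 : ∀ x, 1 / 2 ≤ Real.cos (2 * Real.pi * x) → β x = 0) :
    Λ β = 0 := by
  have hdc : Continuous (deriv β) := hβ.1.continuous_deriv (by simp)
  have hdp : Function.Periodic (deriv β) 1 := by
    intro x
    have h1 : (fun x => β (x + 1)) = β := funext hβ.2
    rw [← deriv_comp_add_const, h1]
  obtain ⟨B, hB⟩ : ∃ B : ℝ, ∀ x, |deriv β x| ≤ B := by
    have h1 := (hdp.compact_of_continuous one_ne_zero hdc).isBounded
    obtain ⟨C, hC⟩ := isBounded_iff_forall_norm_le.1 h1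
    exact ⟨C, fun x => hC _ (mem_range_self x)⟩
  obtain ⟨n, hn⟩ := exists_nat_gt (max B 0)
  have hnB : B < n := lt_of_le_of_lt (le_max_left _ _) hn
  have hn0 : (0 : ℝ) < n := lt_of_le_of_lt (le_max_right _ _) hn
  have hw : PS (fun x => (n : ℝ)⁻¹ * β x) := hβ.const_mul _
  obtain ⟨X, hX, hXe⟩ := exists_X hL hw (by
    intro x
    have hd : DifferentiableAt ℝ β x := hβ.1.differentiable (by simp) x
    have : deriv (fun x => (n : ℝ)⁻¹ * β x) x = (n : ℝ)⁻¹ * deriv β x :=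
      deriv_const_mul _ hd
    rw [this]
    have h1 := neg_le_of_abs_le (hB x)
    have h2 : -(n : ℝ) < deriv β x := by linarith
    have h3 : (n : ℝ)⁻¹ * (-(n : ℝ)) < (n : ℝ)⁻¹ * deriv β x :=
      mul_lt_mul_of_pos_left h2 (inv_pos.2 hn0)
    rwa [mul_neg, inv_mul_cancel₀ hn0.ne'] at h3)
  have hkey : ∀ x, vv (X x) = vv x + (n : ℝ)⁻¹ * β x := by
    intro x
    by_cases hx : 1 / 2 ≤ Real.cos (2 * Real.pi * x)
    · rw [hXe, h0 x hx, mul_zero, add_zero, add_zero]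
    · push Not at hx
      have hmono := hX.1.2.2
      set k : ℝ := (⌊x⌋ : ℝ) with hk
      have hf : Int.fract x = x - k := by rw [hk, Int.self_sub_floor]
      have hf1 : 1 / 6 < Int.fract x ∧ Int.fract x < 5 / 6 := by
        by_contra hcon
        rw [not_and_or, not_lt, not_lt] at hcon
        have := half_le_cos (Int.fract_nonneg x) (Int.fract_lt_one x).le hcon
        rw [cos_fract] at this
        linarith
      have hfix : ∀ y : ℝ, 0 ≤ y → y ≤ 1 → (y ≤ 1 / 6 ∨ 5 / 6 ≤ y) → X (k + y) = k + y := by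
        intro y h1 h2 h3
        rw [hXe, h0, mul_zero, add_zero]
        have e : 2 * Real.pi * (k + y) = 2 * Real.pi * y + (⌊x⌋ : ℝ) * (2 * Real.pi) := by
          rw [hk]; ring
        rw [e, Real.cos_add_int_mul_two_pi]
        exact half_le_cos h1 h2 h3
      have hl : k + 1 / 6 < X x := by
        rw [← hfix (1 / 6) (by norm_num) (by norm_num) (Or.inl le_rfl)]
        exact hmono (by rw [hf] at hf1; linarith [hf1.1])
      have hr : X x < k + 5 / 6 := by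
        rw [← hfix (5 / 6) (by norm_num) (by norm_num) (Or.inr le_rfl)]
        exact hmono (by rw [hf] at hf1; linarith [hf1.2])
      have hfl : ⌊X x⌋ = ⌊x⌋ := by
        rw [Int.floor_eq_iff]
        constructor <;> linarith
      have hfX : Int.fract (X x) = X x - k := by
        rw [← Int.self_sub_floor, hfl]
      have hcX : Real.cos (2 * Real.pi * X x) ≤ 1 / 2 := by
        rw [← cos_fract, hfX]
        exact cos_le_half (by linarith) (by linarith)
      rw [vv_eq hcX, vv_eq hx.le, hfX, hf, hXe]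
      ring
  have h1 := hinv vv vv_PS X hX
  have h2 : (fun x => vv (X x)) = fun x => vv x + (n : ℝ)⁻¹ * β x := funext hkey
  rw [h2, hadd _ _ vv_PS hw] at h1
  have h3 : Λ (fun x => (n : ℝ)⁻¹ * β x) = 0 := by linarith
  have h4 := smul_nat hadd hw n
  rw [h3, mul_zero] at h4
  rw [← h4]
  congr 1
  funext x
  rw [← mul_assoc, mul_inv_cancel₀ hn0.ne', one_mul]

lemma van (hL : S_LPINV) (hadd : ∀ β γ, PS β → PS γ → Λ (fun x => β x + γ x) = Λ β + Λ γ)
    (hinv : ∀ β, PS β → ∀ X, CD X → Λ (fun x => β (X x)) = Λ β)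
    {β : ℝ → ℝ} (hβ : PS β) : Λ β = 0 := by
  set c : ℝ → ℝ := fun x => Real.smoothTransition (1 / 2 - Real.cos (2 * Real.pi * x)) with hc
  have hcs : ContDiff ℝ ∞ c :=
    Real.smoothTransition.contDiff.comp (contDiff_const.sub contDiff_cos2)
  have hcp : ∀ x, c (x + 1) = c x := by
    intro x
    have : 2 * Real.pi * (x + 1) = 2 * Real.pi * x + 2 * Real.pi := by ring
    simp only [hc]
    rw [this, Real.cos_add_two_pi]
  have hP1 : PS (fun x => c x * β x) := ⟨hcs.mul hβ.1, fun x => by simp only [hcp, hβ.2]⟩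
  have hP2 : PS (fun x => (1 - c x) * β x) :=
    ⟨(contDiff_const.sub hcs).mul hβ.1, fun x => by simp only [hcp, hβ.2]⟩
  have h1 : Λ (fun x => c x * β x) = 0 := by
    refine vanA hL hadd hinv hP1 fun x hx => ?_
    simp only [hc]
    rw [Real.smoothTransition.zero_of_nonpos (by linarith), zero_mul]
  have h2 : Λ (fun x => (1 - c x) * β x) = 0 := by
    obtain ⟨T, hT, hTe⟩ := exists_T
    rw [← hinv _ hP2 T hT]
    refine vanA hL hadd hinv ?_ fun x hx => ?_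
    · refine ⟨hP2.1.comp hT.1.1, fun x => ?_⟩
      simp only [hT.2]
      exact hP2.2 (T x)
    · have e : Real.cos (2 * Real.pi * T x) = -Real.cos (2 * Real.pi * x) := by
        rw [hTe]
        have : 2 * Real.pi * (x + 1 / 2) = 2 * Real.pi * x + Real.pi := by ring
        rw [this, Real.cos_add_pi]
      simp only [hc]
      rw [e, Real.smoothTransition.one_of_one_le (by linarith), sub_self, zero_mul]
  have h3 := hadd _ _ hP1 hP2
  rw [h1, h2, add_zero] at h3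
  rw [← h3]
  congr 1
  funext x
  ring

end

/-- elements of `BB` map points near the boundary to points near the boundary -/
lemma near {a : Equiv.Perm HH} (ha : a ∈ BB) {ε : ℝ} (hε : 0 < ε) :
    ∃ δ : ℝ, 0 < δ ∧ ∀ p : HH, -δ < p.1.2 → -ε < (a p).1.2 := by
  obtain ⟨⟨F, hF, hF'⟩, -, hper, hbd, -⟩ := ha
  have hFc : Continuous (fun q : P2 => (F q).2) := continuous_snd.comp hF.continuous
  set K : Set P2 := Icc (0 : ℝ) 1 ×ˢ Icc (-1 : ℝ) 0 with hK
  have hKc : IsCompact K := isCompact_Icc.prod isCompact_Icc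
  have huc := hKc.uniformContinuousOn_of_continuous hFc.continuousOn
  rw [Metric.uniformContinuousOn_iff] at huc
  obtain ⟨δ, hδ, hδ2⟩ := huc ε hε
  refine ⟨min δ 1, lt_min hδ one_pos, fun p hp => ?_⟩
  have hp1 : -δ < p.1.2 := lt_of_le_of_lt (neg_le_neg (min_le_left _ _)) hp
  have hp2 : -1 < p.1.2 := lt_of_le_of_lt (neg_le_neg (min_le_right _ _)) hp
  -- periodicity
  have hg : Function.Periodic (fun x : ℝ => (a ⟨(x, p.1.2), p.2⟩).1.2) 1 := by
    intro x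
    have h1 := hper ⟨(x, p.1.2), p.2⟩
    have h2 : hT 1 ⟨(x, p.1.2), p.2⟩ = (⟨(x + 1, p.1.2), p.2⟩ : HH) := rfl
    rw [h2] at h1
    show (a ⟨(x + 1, p.1.2), p.2⟩).1.2 = (a ⟨(x, p.1.2), p.2⟩).1.2
    rw [h1]
    rfl
  have h3 := hg.sub_int_mul_eq (x := p.1.1) ⌊p.1.1⌋
  rw [mul_one, Int.self_sub_floor] at h3
  have h4 : (a p).1.2 = (a ⟨(Int.fract p.1.1, p.1.2), p.2⟩).1.2 := h3.symm
  rw [h4, hF']
  have h5 : (F (Int.fract p.1.1, 0)).2 = 0 := by
    have h6 := hF' ⟨(Int.fract p.1.1, 0), le_refl 0⟩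
    have h7 := (hbd ⟨(Int.fract p.1.1, 0), le_refl 0⟩).1 rfl
    rw [h6] at h7
    exact h7
  have h8 := hδ2 (Int.fract p.1.1, p.1.2)
    ⟨⟨Int.fract_nonneg _, (Int.fract_lt_one _).le⟩, ⟨hp2.le, p.2⟩⟩ (Int.fract p.1.1, 0)
    ⟨⟨Int.fract_nonneg _, (Int.fract_lt_one _).le⟩, ⟨by norm_num, le_refl 0⟩⟩ (by
      rw [Prod.dist_eq, dist_self]
      refine max_lt hδ ?_
      show dist p.1.2 0 < δ
      rw [Real.dist_eq, sub_zero, abs_of_nonpos p.2]
      linarith)
  rw [h5, Real.dist_eq, sub_zero] at h8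
  exact (abs_lt.1 h8).1

/-- elements which are the identity near the boundary -/
def NN : Subgroup (Equiv.Perm HH) where
  carrier := {f | f ∈ BB ∧ ∃ ε : ℝ, 0 < ε ∧ ∀ p : HH, -ε < p.1.2 → f p = p}
  mul_mem' := by
    rintro f g ⟨hf, ε, hε, h1⟩ ⟨hg, ε', hε', h2⟩
    refine ⟨BB.mul_mem hf hg, min ε ε', lt_min hε hε', fun p hp => ?_⟩
    rw [Equiv.Perm.mul_apply, h2 p (lt_of_le_of_lt (neg_le_neg (min_le_right _ _)) hp),
      h1 p (lt_of_le_of_lt (neg_le_neg (min_le_left _ _)) hp)]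
  one_mem' := ⟨BB.one_mem, 1, one_pos, fun _ _ => rfl⟩
  inv_mem' := by
    rintro f ⟨hf, ε, hε, h1⟩
    exact ⟨BB.inv_mem hf, ε, hε, fun p hp => by rw [Equiv.Perm.inv_eq_iff_eq, h1 p hp]⟩

lemma NN_normal : ∀ a ∈ BB, ∀ n ∈ NN, a * n * a⁻¹ ∈ NN := by
  rintro a ha n ⟨hn, ε, hε, h1⟩
  refine ⟨BB.mul_mem (BB.mul_mem ha hn) (BB.inv_mem ha), ?_⟩
  obtain ⟨δ, hδ, h2⟩ := near (BB.inv_mem ha) hε
  refine ⟨δ, hδ, fun p hp => ?_⟩
  rw [Equiv.Perm.mul_apply, Equiv.Perm.mul_apply, h1 _ (h2 p hp)]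
  exact a.apply_symm_apply p

/-- the value depends only on the germ along the boundary -/
lemma agree (h3 : S_A3) {ν : Equiv.Perm HH → ℝ} (hν : HQMOn BB ν) (h0 : ∀ f ∈ BB0, ν f = 0)
    {f g : Equiv.Perm HH} (hf : f ∈ BB) (hg : g ∈ BB)
    (h : ∃ ε : ℝ, 0 < ε ∧ ∀ p : HH, -ε < p.1.2 → f p = g p) : ν f = ν g := by
  obtain ⟨ε, hε, h⟩ := h
  have hn : f * g⁻¹ ∈ NN := by
    refine ⟨BB.mul_mem hf (BB.inv_mem hg), ?_⟩
    obtain ⟨δ, hδ, h2⟩ := near (BB.inv_mem hg) hε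
    refine ⟨δ, hδ, fun p hp => ?_⟩
    rw [Equiv.Perm.mul_apply, h _ (h2 p hp)]
    exact g.apply_symm_apply p
  have h4 := (h3 _ BB NN ν hν (fun f hf => hf.1) NN_normal (fun n hn => h0 n ⟨hn.1, 0, by
    obtain ⟨ε, hε, h1⟩ := hn.2
    exact ⟨ε, hε, fun p hp => by rw [h1 p hp]; simp⟩⟩) g hg _ hn).2
  rwa [inv_mul_cancel_right] at h4

theorem fl (hS : S_SCAL) (hE : S_EXTC) (hL : S_LPINV) (hA1 : S_A1) (hA3 : S_A3) : S_FL := by
  intro ν hν h0 β hβ hβp f hf hfβ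
  obtain ⟨S, hS1, hS2⟩ := hS
  obtain ⟨hconj, hcomm, -, -, -⟩ := hA1 _ BB ν hν
  have hadd : ∀ β γ, PS β → PS γ → ν (S (fun x => β x + γ x)) = ν (S β) + ν (S γ) := by
    intro β γ hβ hγ
    rw [hS2 β γ hβ.1 hβ.2 hγ.1 hγ.2]
    refine hcomm _ (hS1 β hβ.1 hβ.2).1 _ (hS1 γ hγ.1 hγ.2).1 ?_
    rw [← hS2 β γ hβ.1 hβ.2 hγ.1 hγ.2, ← hS2 γ β hγ.1 hγ.2 hβ.1 hβ.2]
    congr 1
    funext x
    ring
  have hinv : ∀ β, PS β → ∀ X, CD X → ν (S (fun x => β (X x))) = ν (S β) := by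
    intro β hβ X hX
    obtain ⟨M, hM, ε1, hε1, hM1⟩ := hE X hX
    obtain ⟨hSB, ε2, hε2, hS3⟩ := hS1 β hβ.1 hβ.2
    have hP : PS (fun x => β (X x)) := ⟨hβ.1.comp hX.1.1, fun x => by simp only [hX.2, hβ.2]⟩
    obtain ⟨hSB', ε3, hε3, hS4⟩ := hS1 _ hP.1 hP.2
    have h1 : ν (M⁻¹ * S β * M) = ν (S β) := by
      have := hconj (S β) hSB M⁻¹ (BB.inv_mem hM)
      rwa [inv_inv] at this
    rw [← h1]
    refine agree hA3 hν h0 hSB' (BB.mul_mem (BB.mul_mem (BB.inv_mem hM) hSB) hM) ?_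
    obtain ⟨δ, hδ, h2⟩ := near hSB' hε1
    refine ⟨min (min ε1 ε2) (min ε3 δ), lt_min (lt_min hε1 hε2) (lt_min hε3 hδ), fun p hp => ?_⟩
    have p1 : -ε1 < p.1.2 := lt_of_le_of_lt (neg_le_neg
      ((min_le_left _ _).trans (min_le_left _ _))) hp
    have p2 : -ε2 < p.1.2 := lt_of_le_of_lt (neg_le_neg
      ((min_le_left _ _).trans (min_le_right _ _))) hp
    have p3 : -ε3 < p.1.2 := lt_of_le_of_lt (neg_le_neg
      ((min_le_right _ _).trans (min_le_left _ _))) hp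
    have p4 : -δ < p.1.2 := lt_of_le_of_lt (neg_le_neg
      ((min_le_right _ _).trans (min_le_right _ _))) hp
    rw [Equiv.Perm.mul_apply, Equiv.Perm.mul_apply, Equiv.Perm.eq_inv_iff_eq]
    apply Subtype.ext
    have e1 := hM1 p p1
    have e2 := hS4 p p3
    have e3 := hM1 _ (h2 p p4)
    rw [e3, e2]
    have e4 : -ε2 < (M p).1.2 := by rw [e1]; exact p2
    rw [hS3 _ e4, e1]
  have h1 := van (Λ := fun β => ν (S β)) hL hadd hinv (β := β) ⟨hβ, hβp⟩
  obtain ⟨hSB, ε1, hε1, hS3⟩ := hS1 β hβ hβp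
  obtain ⟨ε2, hε2, hf2⟩ := hfβ
  have h2 : ν f = ν (S β) := by
    refine agree hA3 hν h0 hf hSB ⟨min ε1 ε2, lt_min hε1 hε2, fun p hp => ?_⟩
    apply Subtype.ext
    rw [hS3 p (lt_of_le_of_lt (neg_le_neg (min_le_left _ _)) hp),
      hf2 p (lt_of_le_of_lt (neg_le_neg (min_le_right _ _)) hp)]
  rw [h2]
  exact h1

end Pool.Agent.W74.DQ
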